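import Pool.Agent.Lib.MP_1f1ec9_gt.Final

set_option autoImplicit false

open Set Topology

namespace Pool.Agent.Results.MP_1f1ec9_gt.BorelCounterexample

/-- A space is homogeneous if any two of its points are exchanged by a self-homeomorphism. -/
def Homogeneous (X : Type) [TopologicalSpace X] : Prop :=
  ∀ x y : X, ∃ h : X ≃ₜ X, h x = y

/-- A space is sigma-homogeneous if it is a countable union of homogeneous subspaces. -/
def SigmaHomogeneous (X : Type) [TopologicalSpace X] : Prop :=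
  ∃ H : ℕ → Set X, (∀ n, Homogeneous (H n)) ∧ ⋃ n, H n = univ

lemma Homogeneous.congr {X X' : Type} [TopologicalSpace X] [TopologicalSpace X'] (e : X ≃ₜ X')
    (h : Homogeneous X) : Homogeneous X' := by
  intro x y
  obtain ⟨g, hg⟩ := h (e.symm x) (e.symm y)
  refine ⟨(e.symm.trans g).trans e, ?_⟩
  show e (g (e.symm x)) = y
  rw [hg, Homeomorph.apply_symm_apply]

lemma SigmaHomogeneous.congr {X X' : Type} [TopologicalSpace X] [TopologicalSpace X']
    (e : X ≃ₜ X') (h : SigmaHomogeneous X) : SigmaHomogeneous X' := by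
  obtain ⟨H, h1, h2⟩ := h
  refine ⟨fun n => e '' H n, fun n => (h1 n).congr (e.image (H n)), ?_⟩
  rw [← image_iUnion, h2, image_univ]
  exact e.surjective.range_eq

open Pool.Agent.SigmaHom

/-- The change of the index set of the Hilbert cube. -/
noncomputable def reindex : Q ≃ₜ (ℕ → unitInterval) :=
  Homeomorph.piCongrLeft (Y := fun _ : ℕ => unitInterval) (Denumerable.eqv Idx)

theorem result : ∃ X : Set ((ℕ → Bool) × (ℕ → unitInterval)),
    MeasurableSet X ∧ (∀ t, ∃! x, (t, x) ∈ X) ∧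
      TopologicalSpace.SeparableSpace X ∧ TopologicalSpace.MetrizableSpace X ∧
      (∃ f : (ℕ → ℕ) → X, Continuous f ∧ Function.Surjective f) ∧
      ¬ SigmaHomogeneous X := by
  obtain ⟨X, hX, hgr, hn⟩ := main
  set Φ : Y ≃ₜ ((ℕ → Bool) × (ℕ → unitInterval)) :=
    (Homeomorph.refl C).prodCongr reindex with hΦ
  have hΦX : MeasurableSet (Φ '' X) := by
    have h1 : Φ '' X = Φ.symm ⁻¹' X := Φ.image_eq_preimage_symm X
    rw [h1]
    exact Φ.symm.continuous.measurable hX
  have hgr' : ∀ t, ∃! x, (t, x) ∈ Φ '' X := by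
    intro t
    obtain ⟨x, hx, hu⟩ := hgr t
    refine ⟨reindex x, ⟨(t, x), hx, rfl⟩, ?_⟩
    rintro y ⟨⟨t', x'⟩, hx', he⟩
    have h1 : t' = t := congrArg Prod.fst he
    have h2 : reindex x' = y := congrArg Prod.snd he
    subst h1
    rw [← h2, hu x' hx']
  refine ⟨Φ '' X, hΦX, hgr', inferInstance, inferInstance, ?_, ?_⟩
  · have hne : (Φ '' X).Nonempty := by
      obtain ⟨x, hx, _⟩ := hgr' fun _ => false
      exact ⟨_, hx⟩
    have hpol : PolishSpace ((ℕ → Bool) × (ℕ → unitInterval)) := by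
      let := TopologicalSpace.metrizableSpaceMetric ((ℕ → Bool) × (ℕ → unitInterval))
      infer_instance
    have h2 := hΦX.analyticSet
    rw [MeasureTheory.AnalyticSet] at h2
    rcases h2 with h2 | ⟨f, hf, hfr⟩
    · exact absurd h2 hne.ne_empty
    · refine ⟨fun z => ⟨f z, hfr ▸ mem_range_self z⟩, hf.subtype_mk _, ?_⟩
      rintro ⟨y, hy⟩
      rw [← hfr] at hy
      obtain ⟨z, hz⟩ := hy
      exact ⟨z, Subtype.ext hz⟩
  · intro h
    exact hn (h.congr (Φ.image X).symm)

end Pool.Agent.Results.MP_1f1ec9_gt.BorelCounterexample
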